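import Pool.Agent.P8H83.DS.Stm
import Pool.Agent.Y600.DC.NB

/-!
# Project DS: the assembly
-/

set_option autoImplicit false

namespace Pool.Agent.P8H83.DS

open Pool.Agent.NPC Pool.Agent.NPC.R671 Pool.Agent.Y600.DC

theorem relBal {V : Type} [Finite V] (G : SimpleGraph V) (h1 : Chordal G) (h2 : Balanced G) :
    RelBalanced (Close G) := by
  intro m ho hm e x hx h
  have : NeZero m := ⟨by omega⟩
  have : Fact (1 < m) := ⟨by omega⟩
  refine nb V G h1 h2 m ho hm e x ?_ hx h
  intro i j hij
  have e1 := (h i i).2 (Or.inl rfl)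
  have e2 := (h i (i + 1)).2 (Or.inr rfl)
  rw [hij, h] at e1 e2
  rcases e1 with e1 | e1
  · exact e1
  · rcases e2 with e2 | e2
    · exfalso
      rw [e1] at e2
      have e3 : ((2 : ℕ) : ZMod m) = 0 := by
        have : j + 1 + 1 - j = j - j := by rw [e2]
        push_cast
        linear_combination this
      rw [ZMod.natCast_eq_zero_iff] at e3
      exact absurd (Nat.le_of_dvd (by norm_num) e3) (by omega)
    · exact add_right_cancel e2

theorem run_nil (t : ℕ) : run [] t = [] := by
  unfold run
  induction t with
  | zero => rfl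
  | succ t ih => rw [Function.iterate_succ_apply', ih]; rfl

theorem iff_pos (hr : S_ROUND) (hm : S_MWU) (n : ℕ) (G : SimpleGraph (Fin n)) (k : ℕ)
    (h1 : Chordal G) (h2 : Balanced G) (pick : ℕ → Fin n) (hg : Greedy G pick (rounds n)) :
    (∀ v, rounds n < (k + 1) * cnt G pick (rounds n) v) ↔
      ∃ D : Finset (Fin n), D.card ≤ k ∧ Dominating G D := by
  classical
  constructor
  · intro h
    set T := rounds n with hT
    let a : Fin n → ℕ := fun u => ((Finset.range T).filter (fun τ => pick τ = u)).card
    have ha : ∀ (p : Fin n → Prop) [DecidablePred p], ∑ u ∈ Finset.univ.filter p, a u =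
        ((Finset.range T).filter (fun τ => p (pick τ))).card := by
      intro p _
      rw [Finset.card_eq_sum_card_fiberwise (f := pick) (t := Finset.univ.filter p)]
      · refine Finset.sum_congr rfl fun u hu => ?_
        show ((Finset.range T).filter (fun τ => pick τ = u)).card = _
        congr 1
        ext τ
        simp only [Finset.mem_filter]
        constructor
        · rintro ⟨e1, e2⟩
          exact ⟨⟨e1, by rw [e2]; exact (Finset.mem_filter.1 hu).2⟩, e2⟩
        · rintro ⟨⟨e1, _⟩, e2⟩
          exact ⟨e1, e2⟩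
      · intro τ hτ
        have := (Finset.mem_filter.1 (Finset.mem_coe.1 hτ)).2
        exact Finset.mem_coe.2 (Finset.mem_filter.2 ⟨Finset.mem_univ _, this⟩)
    obtain ⟨D, hD, hc⟩ := hr (Fin n) (Fin n) (Close G) (relBal G h1 h2) a (T / (k + 1) + 1)
      (Nat.le_add_left 1 _) (fun v => by
        have e : ∑ x ∈ Finset.univ.filter (fun x => Close G v x), a x = cnt G pick T v := by
          rw [ha (fun x => Close G v x)]
          unfold cnt
          congr 1
        have e2 : T / (k + 1) < cnt G pick T v := by
          rw [Nat.div_lt_iff_lt_mul (by omega)]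
          rw [mul_comm]
          exact h v
        calc T / (k + 1) + 1 ≤ cnt G pick T v := e2
          _ = _ := by
            rw [← e])
    refine ⟨D, ?_, ?_⟩
    · have e : ∑ x, a x = T := by
        have := ha (fun _ => True)
        simpa using this
      rw [e] at hc
      by_contra hk
      push Not at hk
      have h3 : (T / (k + 1) + 1) * (k + 1) ≤ T :=
        (Nat.mul_le_mul_left _ hk).trans hc
      have h4 : T < (T / (k + 1) + 1) * (k + 1) := by
        rw [← Nat.div_lt_iff_lt_mul (by omega)]
        omega
      omega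
    · intro v hv
      obtain ⟨w, hw, hvw⟩ := hD v
      rcases hvw with hvw | hvw
      · exact absurd (hvw ▸ hw) hv
      · exact ⟨w, hw, hvw⟩
  · rintro ⟨D, hD, hdom⟩ v
    refine lt_of_lt_of_le (hm n G pick hg D hdom v) ?_
    exact Nat.mul_le_mul_right _ (by omega)

theorem fin (hr : S_ROUND) (hm : S_MWU) (hc : S_COR) (hp : S_POL) :
    ∃ A : List Bool → List Bool, PolyTime A ∧ (∀ p : List (List Bool) × ℕ,
      A (bits p) = [true] ∨ A (bits p) = [false]) ∧
      ∀ (n : ℕ) (G : SimpleGraph (Fin n)) (k : ℕ), Chordal G → Balanced G →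
        (A (bits (adjMatrix G, k)) = [true] ↔
          ∃ D : Finset (Fin n), D.card ≤ k ∧ Dominating G D) := by
  obtain ⟨A, hA, hAp⟩ := hp
  refine ⟨A, hA, fun p => ?_, fun n G k h1 h2 => ?_⟩
  · rw [hAp]
    cases alg p
    · exact Or.inr rfl
    · exact Or.inl rfl
  · rw [hAp]
    have e : ([alg (adjMatrix G, k)] = [true]) ↔ alg (adjMatrix G, k) = true := by simp
    rw [e]
    rcases Nat.eq_zero_or_pos n with rfl | hn
    · have e1 : adjMatrix G = [] := by
        unfold adjMatrix
        simp
      have e2 : alg (adjMatrix G, k) = true := by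
        unfold alg
        rw [e1]
        simp only [run_nil]
        rfl
      exact ⟨fun _ => ⟨∅, by simp, fun v => v.elim0⟩, fun _ => e2⟩
    · obtain ⟨pick, hg, h⟩ := hc n G k hn
      rw [h]
      exact iff_pos hr hm n G k h1 h2 pick hg

end Pool.Agent.P8H83.DS
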