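import Pool.Agent.Y600.DC.Stm

/-!
# Project DS: DOMINATING SET is in P on balanced chordal graphs (MP_1e64e3_lc, full answer)

The plan is the one of helper600 (`Pool.Agent.Y600.DC.Stm`). The closed neighbourhood matrix of a
balanced chordal graph is balanced (`Pool.Agent.Y600.DC.nb : S_NB`, proved). So a fractional
dominating set can be rounded (`S_BICOL`, `S_GOOD`, `S_ROUND`, Berge), and the multiplicative weights
algorithm with `rounds n` rounds decides whether there is a dominating set with `k` vertices
(`S_MWU`, and `S_COR`, `S_POL` below).
-/

set_option autoImplicit false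

namespace Pool.Agent.P8H83.DS

open Pool.Agent.NPC Pool.Agent.NPC.R671 Pool.Agent.Y600.DC

/-- `u` and `v` are equal or adjacent (entry of the matrix `M`) -/
def cl (M : List (List Bool)) (u v : ℕ) : Bool := decide (u = v) || (M.getD u []).getD v false

/-- the sum of the weights (first entries of `s`) of the vertices close to `u` -/
def ld (M : List (List Bool)) (s : List (ℕ × ℕ)) (u : ℕ) : ℕ :=
  ((List.range M.length).map fun v => if cl M v u then (s.getD v (0, 0)).1 else 0).sum

/-- a vertex with the largest load -/
def best (M : List (List Bool)) (s : List (ℕ × ℕ)) : ℕ :=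
  (List.range M.length).foldl (fun b u => if ld M s b < ld M s u then u else b) 0

/-- One round: `s` is the list of the pairs (weight, number of rounds in which the chosen vertex was
close to `v`), for `v = 0, 1, ...`. -/
def step (M : List (List Bool)) (s : List (ℕ × ℕ)) : List (ℕ × ℕ) :=
  (List.range M.length).map fun v =>
    if cl M v (best M s) then
      ((2 * M.length + 1) * (s.getD v (0, 0)).1, (s.getD v (0, 0)).2 + 1)
    else ((2 * M.length + 2) * (s.getD v (0, 0)).1, (s.getD v (0, 0)).2)

/-- the state after `t` rounds -/
def run (M : List (List Bool)) (t : ℕ) : List (ℕ × ℕ) :=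
  (step M)^[t] ((List.range M.length).map fun _ => (1, 0))

/-- the algorithm: given the matrix and `k` -/
def alg (p : List (List Bool) × ℕ) : Bool :=
  (run p.1 (rounds p.1.length)).all fun x => decide (rounds p.1.length < (p.2 + 1) * x.2)

/-- **COR.** The algorithm is the greedy algorithm. Proof: choose `pick t` = `best` of the state
`run (adjMatrix G) t` (it is `< n` as `0 < n`); by induction on `t`, entry `v` of the state after
`t` rounds is `((2n+1)^(cnt v) * (2n+2)^(t - cnt v), cnt v)` where `cnt v = cnt G pick t v`, so the load
is `load G pick t u`. -/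
def S_COR : Prop := ∀ (n : ℕ) (G : SimpleGraph (Fin n)) (k : ℕ), 0 < n → ∃ pick : ℕ → Fin n,
  Greedy G pick (rounds n) ∧ (alg (adjMatrix G, k) = true ↔
    ∀ v, rounds n < (k + 1) * cnt G pick (rounds n) v)

/-- **POL.** The algorithm runs in polynomial time. Proof: `Poly` (with `fun_prop`, see
`Pool.Agent.H671R2.PolyAuto`), `Poly.foldl` and the iteration lemmas of `Pool.Agent.NPC.Num`; the
weights after `t` rounds are at most `(2n+2)^t`. For the passage from `Poly` to `PolyTime` and for the
decoding see `Pool.Agent.NPC.Dec` (`unbits`) and the end of `Pool.Agent.Y410.DC.Hard`. -/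
def S_POL : Prop := ∃ A : List Bool → List Bool, PolyTime A ∧
  ∀ p : List (List Bool) × ℕ, A (bits p) = [alg p]

end Pool.Agent.P8H83.DS
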